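import Pool.Agent.H362.LD.Main
import Pool.Agent.H313.ZC.AP2

set_option autoImplicit false

/-! # The sum of the amplitudes `1/|ρ ζ'(ρ)|` over the simple zeros up to `T` -/

namespace Pool.Agent.H362.QI

open Filter Topology
open Pool.Agent.W120.WM (NT)
open Pool.Agent.H295R2 (ww)
open Pool.Agent.H362.LD (Sz Sz_finite unif)

/-- one block -/
lemma block {e : ℝ} (he0 : 0 < e) : ∃ d U₀ : ℝ, 1 < U₀ ∧ ∀ U : ℝ, U₀ ≤ U →
    Real.log U ^ (1 / 4 - 2 * e) / 3 ≤ ∑ ρ ∈ (Sz_finite d (-(1 / 2)) e U).toFinset, ‖ww ρ‖ := by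
  obtain ⟨d, hd, h⟩ := unif
  obtain ⟨U₁, hU₁⟩ := eventually_atTop.1 ((h 1 e he0).and
    ((Real.tendsto_log_atTop.eventually_ge_atTop 1).and (eventually_ge_atTop (2:ℝ))))
  refine ⟨d, max U₁ 2, lt_max_of_lt_right (by norm_num), fun U hU => ?_⟩
  obtain ⟨h1, h2, h3⟩ := hU₁ U ((le_max_left _ _).trans hU)
  have hL0 : 0 < Real.log U := by linarith
  have hU0 : 0 < U := by linarith
  have h4 := h1 (-(1 / 2)) (by rw [abs_neg, abs_of_pos] <;> norm_num)
  rw [Set.ncard_eq_toFinset_card _ (Sz_finite d (-(1 / 2)) e U)] at h4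
  have hterm : ∀ ρ ∈ (Sz_finite d (-(1 / 2)) e U).toFinset,
      1 / (3 * U * Real.log U ^ (1 / 2 + e)) ≤ ‖ww ρ‖ := by
    intro ρ hρ
    rw [Set.Finite.mem_toFinset] at hρ
    obtain ⟨a1, a2, a3, a4, a5, a6, a7, a8⟩ := hρ
    have e1 : ‖ww ρ‖ = 1 / (‖ρ‖ * ‖deriv riemannZeta ρ‖) := by
      unfold Pool.Agent.H295R2.ww
      rw [norm_div, norm_one, norm_mul]
    have e2 : ‖ρ‖ ≤ 3 * U := by
      have := Complex.norm_le_abs_re_add_abs_im ρ
      rw [a2, abs_of_pos (by norm_num : (0:ℝ) < 1 / 2), abs_of_pos (by linarith : 0 < ρ.im)] at this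
      linarith
    have e3 : 0 < ‖ρ‖ := norm_pos_iff.2 (by rintro rfl; simp at a2)
    have e4 : 0 < ‖deriv riemannZeta ρ‖ := norm_pos_iff.2 a5
    have e5 : ‖deriv riemannZeta ρ‖ ≤ Real.log U ^ (1 / 2 + e) := by
      refine a8.trans (le_of_eq ?_)
      congr 1; ring
    rw [e1]
    exact one_div_le_one_div_of_le (by positivity) (mul_le_mul e2 e5 e4.le (by positivity))
  have h5 := Finset.card_nsmul_le_sum _ _ _ hterm
  rw [nsmul_eq_mul] at h5
  refine le_trans ?_ h5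
  have hp : 0 < Real.log U ^ (1 / 2 + e) := Real.rpow_pos_of_pos hL0 _
  calc Real.log U ^ (1 / 4 - 2 * e) / 3 =
        (U * Real.log U ^ (1 - (-(1 / 2)) ^ 2 - e)) * (1 / (3 * U * Real.log U ^ (1 / 2 + e))) := by
          have : Real.log U ^ (1 - (-(1 / 2)) ^ 2 - e) = Real.log U ^ (1 / 4 - 2 * e) * Real.log U ^ (1 / 2 + e) := by
            rw [← Real.rpow_add hL0]; congr 1; ring
          rw [this]; field_simp
    _ ≤ _ := mul_le_mul_of_nonneg_right h4 (by positivity)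

/-- the sum of the amplitudes -/
theorem amp {ε : ℝ} (hε : 0 < ε) : ∀ᶠ T : ℝ in atTop, ∃ Z : Finset ℂ,
    (∀ ρ ∈ Z, riemannZeta ρ = 0 ∧ ρ.re = 1 / 2 ∧ 0 < ρ.im ∧ ρ.im ≤ T ∧ deriv riemannZeta ρ ≠ 0) ∧
    Real.log T ^ (5 / 4 - ε) ≤ ∑ ρ ∈ Z, ‖ww ρ‖ := by
  classical
  set e : ℝ := min (ε / 3) (1 / 8) with he
  have he0 : 0 < e := lt_min (by positivity) (by norm_num)
  have he1 : 3 * e ≤ ε := by have := min_le_left (ε / 3) (1 / 8 : ℝ); rw [← he] at this; linarith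
  have he2 : e ≤ 1 / 8 := min_le_right _ _
  obtain ⟨d, U₀, hU₀, hb⟩ := block he0
  have hl : Tendsto (fun T : ℝ => Real.log T ^ e) atTop atTop :=
    (tendsto_rpow_atTop he0).comp Real.tendsto_log_atTop
  filter_upwards [eventually_ge_atTop (1:ℝ), Real.tendsto_log_atTop.eventually_ge_atTop 8,
    (tendsto_rpow_atTop (show (0:ℝ) < 1 / 2 by norm_num)).eventually_ge_atTop U₀,
    hl.eventually_ge_atTop 24] with T hT1 hL8 hTU hLe
  have hT0 : 0 < T := by linarith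
  have hL0 : 0 < Real.log T := by linarith
  set L : ℝ := Real.log T with hL
  set J : ℕ := ⌊L / 2⌋₊ with hJ
  have hJ1 : (J:ℝ) ≤ L / 2 := Nat.floor_le (by positivity)
  have hJ2 : L / 2 - 1 ≤ (J:ℝ) := by
    have := Nat.lt_floor_add_one (L / 2)
    rw [← hJ] at this; linarith
  -- the blocks
  set U : ℕ → ℝ := fun j => T / 2 ^ (j + 1) with hUdef
  have hpow : ∀ j ∈ Finset.range J, (2:ℝ) ^ (j + 1) ≤ T ^ (1 / 2 : ℝ) := by
    intro j hj
    rw [Finset.mem_range] at hj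
    have h1 : ((j + 1 : ℕ) : ℝ) ≤ L / 2 := by
      have : ((j + 1 : ℕ) : ℝ) ≤ (J : ℝ) := by exact_mod_cast hj
      linarith
    have h2 : (2:ℝ) ^ (j + 1) ≤ Real.exp ((j + 1 : ℕ) : ℝ) := by
      rw [← Real.exp_one_rpow, Real.rpow_natCast]
      have : (2:ℝ) ≤ Real.exp 1 := by linarith [Real.exp_one_gt_d9]
      gcongr
    refine h2.trans ?_
    rw [Real.rpow_def_of_pos hT0]
    exact Real.exp_le_exp.2 (by rw [← hL]; linarith)
  have hUlow : ∀ j ∈ Finset.range J, T ^ (1 / 2 : ℝ) ≤ U j := by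
    intro j hj
    rw [hUdef]
    beta_reduce
    rw [le_div_iff₀ (by positivity)]
    calc T ^ (1 / 2 : ℝ) * 2 ^ (j + 1) ≤ T ^ (1 / 2 : ℝ) * T ^ (1 / 2 : ℝ) := by
          gcongr; exact hpow j hj
      _ = T := by rw [← Real.rpow_add hT0]; norm_num
  set S : ℕ → Finset ℂ := fun j => (Sz_finite d (-(1 / 2)) e (U j)).toFinset with hS
  have hmem : ∀ j, ∀ ρ ∈ S j, ρ ∈ Sz d (-(1 / 2)) e (U j) := fun j ρ hρ => by
    rw [hS] at hρ
    beta_reduce at hρ
    rwa [Set.Finite.mem_toFinset] at hρ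
  refine ⟨(Finset.range J).biUnion S, ?_, ?_⟩
  · intro ρ hρ
    rw [Finset.mem_biUnion] at hρ
    obtain ⟨j, hj, hρ⟩ := hρ
    obtain ⟨a1, a2, a3, a4, a5, a6, a7, a8⟩ := hmem j ρ hρ
    have hUp : 0 < U j := by rw [hUdef]; positivity
    refine ⟨a1, a2, hUp.trans a3, a4.trans ?_, a5⟩
    rw [hUdef]
    beta_reduce
    have h2 : (1:ℝ) ≤ 2 ^ j := one_le_pow₀ (by norm_num)
    have h3 : 2 * (T / 2 ^ (j + 1)) = T / 2 ^ j := by rw [pow_succ]; field_simp
    rw [h3]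
    exact div_le_self hT0.le h2
  · have hdisj : Set.PairwiseDisjoint (Finset.range J : Set ℕ) S := by
      have key : ∀ i j : ℕ, i < j → Disjoint (S i) (S j) := by
        intro i j hij
        rw [Finset.disjoint_left]
        intro ρ h1 h2
        have b1 := (hmem i ρ h1).2.2.1
        have b2 := (hmem j ρ h2).2.2.2.1
        have h3 : 2 * U j ≤ U i := by
          rw [hUdef]
          beta_reduce
          have h4 : 2 * (T / 2 ^ (j + 1)) = T / 2 ^ j := by rw [pow_succ]; field_simp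
          rw [h4]
          exact div_le_div_of_nonneg_left hT0.le (by positivity) (pow_le_pow_right₀ (by norm_num) hij)
        linarith
      intro i _ j _ hij
      rcases lt_or_gt_of_ne hij with h | h
      · exact key i j h
      · exact (key j i h).symm
    rw [Finset.sum_biUnion hdisj]
    have hlogU : ∀ j ∈ Finset.range J, L / 2 ≤ Real.log (U j) := by
      intro j hj
      have h1 := Real.log_le_log (by positivity) (hUlow j hj)
      rw [Real.log_rpow hT0] at h1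
      linarith
    have h1 : ∀ j ∈ Finset.range J, (L / 2) ^ (1 / 4 - 2 * e) / 3 ≤ ∑ ρ ∈ S j, ‖ww ρ‖ := by
      intro j hj
      refine le_trans ?_ (hb (U j) (hTU.trans (hUlow j hj)))
      gcongr
      · linarith
      · exact hlogU j hj
    have h2 := Finset.card_nsmul_le_sum _ _ _ h1
    rw [Finset.card_range, nsmul_eq_mul] at h2
    refine le_trans ?_ h2
    have h3 : L ^ (1 / 4 - 2 * e) / 2 ≤ (L / 2) ^ (1 / 4 - 2 * e) := by
      rw [Real.div_rpow hL0.le (by norm_num)]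
      refine div_le_div_of_nonneg_left (by positivity) (by positivity) ?_
      calc (2:ℝ) ^ (1 / 4 - 2 * e) ≤ (2:ℝ) ^ (1:ℝ) := Real.rpow_le_rpow_of_exponent_le (by norm_num) (by linarith)
        _ = 2 := Real.rpow_one 2
    have h4 : L / 4 ≤ (J:ℝ) := by linarith
    have hp : 0 < L ^ (1 / 4 - 2 * e) := Real.rpow_pos_of_pos hL0 _
    calc L ^ (5 / 4 - ε) ≤ L ^ (5 / 4 - 3 * e) := Real.rpow_le_rpow_of_exponent_le (by linarith) (by linarith)
      _ = L ^ (5 / 4 - 3 * e) * 1 := by ring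
      _ ≤ L ^ (5 / 4 - 3 * e) * (L ^ e / 24) := by
          refine mul_le_mul_of_nonneg_left ?_ (Real.rpow_pos_of_pos hL0 _).le
          linarith
      _ = (L / 4) * (L ^ (1 / 4 - 2 * e) / 2 / 3) := by
          have h5 : L ^ (5 / 4 - 3 * e) * L ^ e = L * L ^ (1 / 4 - 2 * e) := by
            calc L ^ (5 / 4 - 3 * e) * L ^ e = L ^ (1 + (1 / 4 - 2 * e)) := by
                  rw [← Real.rpow_add hL0]; congr 1; ring
              _ = L * L ^ (1 / 4 - 2 * e) := by rw [Real.rpow_add hL0, Real.rpow_one]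
          calc L ^ (5 / 4 - 3 * e) * (L ^ e / 24) = (L ^ (5 / 4 - 3 * e) * L ^ e) / 24 := by ring
            _ = (L / 4) * (L ^ (1 / 4 - 2 * e) / 2 / 3) := by rw [h5]; ring
      _ ≤ (J:ℝ) * ((L / 2) ^ (1 / 4 - 2 * e) / 3) := by gcongr

end Pool.Agent.H362.QI
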