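import Pool.Agent.H362.QI.Main

set_option autoImplicit false

/-! # A bound for `M(e^v) e^(-v/2)` and the sum of the amplitudes -/

namespace Pool.Agent.H362.QI

open MeasureTheory Filter Topology Set
open Pool.Agent.W120.WM (NT)
open Pool.Agent.H295R2 (ww ee)
open Pool.Agent.TH223.AP
open Pool.Agent.H313.ZC (HS aa fz fz_mem fz_sum dist_fin exists_fz im_ne)

lemma mn_lim_nonneg {D : ℝ → ℝ} (hD : LB D) (h0 : ∀ᶠ v in atTop, 0 ≤ D v) {l : ℝ}
    (hl : Tendsto (mn D) atTop (𝓝 l)) : 0 ≤ l := by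
  obtain ⟨v0, hv0⟩ := eventually_atTop.1 (h0.and (eventually_ge_atTop (0:ℝ)))
  set w : ℝ := max v0 0 with hw
  have hw0 : 0 ≤ w := le_max_right _ _
  have h1 : Tendsto (fun V : ℝ => (∫ v in (0:ℝ)..w, D v) / V) atTop (𝓝 0) := by
    simpa [div_eq_mul_inv] using (tendsto_inv_atTop_zero (𝕜 := ℝ)).const_mul (∫ v in (0:ℝ)..w, D v)
  refine le_of_tendsto_of_tendsto h1 hl ?_
  filter_upwards [eventually_gt_atTop (max w 0)] with V hV
  have hVw : w < V := (le_max_left _ _).trans_lt hV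
  have hV0 : 0 < V := (le_max_right _ _).trans_lt hV
  unfold mn
  refine div_le_div_of_nonneg_right ?_ hV0.le
  have h2 : IntervalIntegrable D volume 0 w := hD.ii hw0
  have h3 : IntervalIntegrable D volume 0 V := hD.ii hV0.le
  have h4 : IntervalIntegrable D volume w V := h2.symm.trans h3
  rw [← intervalIntegral.integral_add_adjacent_intervals h2 h4]
  have h5 : 0 ≤ ∫ v in w..V, D v :=
    intervalIntegral.integral_nonneg hVw.le fun v hv => (hv0 v ((le_max_left _ _).trans hv.1)).1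
  linarith

lemma LB_mul {f g : ℝ → ℝ} (hf : LB f) (hg : LB g) : LB (fun v => f v * g v) := by
  refine ⟨hf.meas.mul hg.meas, fun V => ?_⟩
  obtain ⟨B, hB⟩ := hf.bdd V
  obtain ⟨C, hC⟩ := hg.bdd V
  refine ⟨B * C, fun v hv => ?_⟩
  rw [abs_mul]
  exact mul_le_mul (hB v hv) (hC v hv) (abs_nonneg _) ((abs_nonneg _).trans (hB v hv))

variable {n : Type} [Fintype n] [DecidableEq n]

theorem bound (hHS : HS) (hsum : Summable (fun ρ : NT => aa ρ)) {g : n → ℝ} (hpos : ∀ i, 0 < g i)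
    (hz : ∀ i, zr (g i) ∈ NT) (hF : Free g) {σ A : ℝ} (hσ : σ = 1 ∨ σ = -1) (hA : ∀ᶠ v in atTop, σ * ft v ≤ A) :
    ∑ i, ‖ww (zr (g i))‖ ≤ A := by
  classical
  have hσσ : σ * σ = 1 := by rcases hσ with h | h <;> rw [h] <;> norm_num
  have hσa : |σ| = 1 := by rcases hσ with h | h <;> rw [h] <;> simp
  set S : ℝ := ∑ i, ‖ww (zr (g i))‖ with hS
  set b : n → ℂ := fun i => (σ / (2 * ‖ww (zr (g i))‖) : ℝ) * ww (zr (g i)) with hb
  have hwp : ∀ i, 0 < ‖ww (zr (g i))‖ := fun i => norm_pos_iff.2 (ww_ne hHS (hz i))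
  have hbn : ∀ i, ‖b i‖ ≤ 1 / 2 := by
    intro i
    rw [hb]
    beta_reduce
    have := hwp i
    rw [norm_mul, Complex.norm_real, Real.norm_eq_abs, abs_div, hσa, abs_of_pos (by positivity)]
    apply le_of_eq
    field_simp
  have hbv : ∀ i, 2 * ((starRingEnd ℂ) (b i) * ww (zr (g i))).re = σ * ‖ww (zr (g i))‖ := by
    intro i
    rw [hb]
    beta_reduce
    have h0 := hwp i
    rw [map_mul, Complex.conj_ofReal, mul_assoc, Complex.re_ofReal_mul, mul_comm ((starRingEnd ℂ) _), Complex.mul_conj,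
      Complex.ofReal_re, Complex.normSq_eq_norm_sq]
    field_simp
  set B : ℝ := 2 ^ Fintype.card n with hB
  have hB0 : 0 < B := by positivity
  refine le_of_forall_pos_le_add fun ε hε => ?_
  obtain ⟨δ, hδ, hδε⟩ : ∃ δ : ℝ, 0 < δ ∧ δ * (B ^ 2 / 2 + 1 / 2) ≤ ε :=
    ⟨ε / (B ^ 2 / 2 + 1 / 2), by positivity, by rw [div_mul_cancel₀ _ (by positivity)]⟩
  obtain ⟨s₀, hs₀⟩ := exists_fz hsum (show 0 < δ ^ 2 by positivity)
  set t : Finset NT := s₀ ∪ (Finset.univ.image (fun i => (⟨zr (g i), hz i⟩ : NT)) ∪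
    Finset.univ.image (fun i => (⟨zr (- g i), zr_neg (hz i)⟩ : NT))) with ht
  have hts : s₀ ⊆ t := Finset.subset_union_left
  have hZ1 : ∀ i, zr (g i) ∈ fz t := by
    intro i
    unfold Pool.Agent.H313.ZC.fz
    rw [Finset.mem_map]
    refine ⟨⟨zr (g i), hz i⟩, ?_, rfl⟩
    rw [ht, Finset.mem_union, Finset.mem_union]
    exact Or.inr (Or.inl (Finset.mem_image_of_mem _ (Finset.mem_univ i)))
  have hZ2 : ∀ i, zr (- g i) ∈ fz t := by
    intro i
    unfold Pool.Agent.H313.ZC.fz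
    rw [Finset.mem_map]
    refine ⟨⟨zr (- g i), zr_neg (hz i)⟩, ?_, rfl⟩
    rw [ht, Finset.mem_union, Finset.mem_union]
    exact Or.inr (Or.inr (Finset.mem_image_of_mem _ (Finset.mem_univ i)))
  set P : ℝ → ℂ := fun v => ∑ ρ ∈ fz t, ww ρ * ee ρ v with hP
  have hPc : Continuous P := by
    rw [hP]
    unfold Pool.Agent.H295R2.ee
    fun_prop
  have l3 := dist_fin hHS hsum (fz t) fun ρ hρ => fz_mem hρ
  have hl3 : ∑' ρ : NT, aa ρ - ∑ ρ ∈ fz t, ‖ww ρ‖ ^ 2 ≤ δ ^ 2 := by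
    rw [fz_sum]
    linarith [hs₀ t hts]
  set ℓ : ℝ := ∑' ρ : NT, aa ρ - ∑ ρ ∈ fz t, ‖ww ρ‖ ^ 2 with hℓ
  have l2 := mean_prod hHS hz hF b (fz t) (fun ρ hρ => fz_mem hρ) hZ1 hZ2
  have hl2 : ∑ i, 2 * ((starRingEnd ℂ) (b i) * ww (zr (g i))).re = σ * S := by
    rw [Finset.sum_congr rfl fun i _ => hbv i, ← Finset.mul_sum]
  rw [hl2] at l2
  have l1 := mean_rz hpos hF b
  set q1 : ℝ → ℝ := rz g b with hq1
  set q2 : ℝ → ℝ := fun v => (P v).re * rz g b v with hq2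
  set q3 : ℝ → ℝ := fun v => ‖((ft v : ℝ) : ℂ) - P v‖ ^ 2 with hq3
  have b1 : LB q1 := LB.of_cont (rz_cont g b)
  have b2 : LB q2 := LB.of_cont ((Complex.continuous_re.comp hPc).mul (rz_cont g b))
  have b3 : LB q3 := ft_LB.normsq hPc
  have bD : LB (fun v => (A * q1 v + (δ / 2 * B ^ 2 + 1 / (2 * δ) * q3 v)) - σ * q2 v) :=
    ((b1.const_mul A).add ((LB.of_cont continuous_const).add (b3.const_mul _))).sub (b2.const_mul σ)
  have hD0 : ∀ᶠ v in atTop, 0 ≤ (A * q1 v + (δ / 2 * B ^ 2 + 1 / (2 * δ) * q3 v)) - σ * q2 v := by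
    filter_upwards [hA] with v hv
    have r0 : 0 ≤ rz g b v := rz_nonneg g hbn v
    have r1 : rz g b v ≤ B := rz_le g hbn v
    have h1 : σ * ft v * rz g b v ≤ A * rz g b v := mul_le_mul_of_nonneg_right hv r0
    have h2 : |(P v).re - ft v| ≤ ‖((ft v : ℝ) : ℂ) - P v‖ := by
      have := Complex.abs_re_le_norm (((ft v : ℝ) : ℂ) - P v)
      rw [Complex.sub_re, Complex.ofReal_re] at this
      rwa [abs_sub_comm]
    have h3 : σ * ((P v).re - ft v) * rz g b v ≤ ‖((ft v : ℝ) : ℂ) - P v‖ * B := by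
      calc σ * ((P v).re - ft v) * rz g b v ≤ |σ * ((P v).re - ft v)| * rz g b v :=
            mul_le_mul_of_nonneg_right (le_abs_self _) r0
        _ = |(P v).re - ft v| * rz g b v := by rw [abs_mul, hσa, one_mul]
        _ ≤ _ := mul_le_mul h2 r1 r0 (norm_nonneg _)
    have h4 := Pool.Agent.H313.ZC.am δ B ‖((ft v : ℝ) : ℂ) - P v‖ hδ
    rw [hq1, hq2, hq3]
    beta_reduce
    nlinarith
  have hlim : Tendsto (mn fun v => (A * q1 v + (δ / 2 * B ^ 2 + 1 / (2 * δ) * q3 v)) - σ * q2 v) atTop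
      (𝓝 ((A * 1 + (δ / 2 * B ^ 2 + 1 / (2 * δ) * ℓ)) - σ * (σ * S))) := by
    have h5 := ((l1.const_mul A).add ((tendsto_const_nhds (x := δ / 2 * B ^ 2)).add (l3.const_mul (1 / (2 * δ))))).sub
      (l2.const_mul σ)
    refine h5.congr' ?_
    filter_upwards [eventually_gt_atTop (0:ℝ)] with V hV
    have i1 := (b1.const_mul A).ii hV.le
    have i2 := (b2.const_mul σ).ii hV.le
    have i3 := (b3.const_mul (1 / (2 * δ))).ii hV.le
    have i4 : IntervalIntegrable (fun _ : ℝ => δ / 2 * B ^ 2) volume 0 V := intervalIntegrable_const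
    have e1 := mn_const_mul A q1 V
    have e2 := mn_const_mul σ q2 V
    have e3 := mn_const_mul (1 / (2 * δ)) q3 V
    have e4 := mn_const (δ / 2 * B ^ 2) hV
    rw [mn_sub (i1.add (i4.add i3)) i2, mn_add i1 (i4.add i3), mn_add i4 i3, e1, e2, e3, e4]
  have hfin := mn_lim_nonneg bD hD0 hlim
  have h6 : 1 / (2 * δ) * ℓ ≤ δ / 2 := by
    calc 1 / (2 * δ) * ℓ ≤ 1 / (2 * δ) * δ ^ 2 := by gcongr
      _ = δ / 2 := by field_simp
  have h7 : σ * (σ * S) = S := by rw [← mul_assoc, hσσ, one_mul]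
  nlinarith

end Pool.Agent.H362.QI
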