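import Pool.Agent.H362.QI.Bound

set_option autoImplicit false

/-! # Relations between the ordinates and the size of the Mertens function -/

namespace Pool.Agent.H362.QI

open MeasureTheory Filter Topology Set
open Pool.Agent.W120.WM (NT)
open Pool.Agent.H295R2 (ww ee)
open Pool.Agent.TH223.AP
open Pool.Agent.H313.ZC (HS aa of_bdd)

/-- no relation up to `T` -/
def NR (T : ℝ) : Prop := ∀ P N : Finset ℝ, Disjoint P N → (∀ γ ∈ P ∪ N, 0 < γ ∧ γ ≤ T ∧ riemannZeta (zr γ) = 0) →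
  2 ≤ (P ∪ N).card → ∑ γ ∈ P, γ - ∑ γ ∈ N, γ ≠ 0 ∧ riemannZeta (zr (∑ γ ∈ P, γ - ∑ γ ∈ N, γ)) ≠ 0

lemma free_of {n : Type} [Fintype n] [DecidableEq n] {T : ℝ} (h : NR T) {g : n → ℝ} (hinj : Function.Injective g)
    (hg : ∀ i, 0 < g i ∧ g i ≤ T ∧ riemannZeta (zr (g i)) = 0) : Free g := by
  classical
  intro e he hc
  set P : Finset ℝ := (Finset.univ.filter fun i => e i = 1).image g with hP
  set N : Finset ℝ := (Finset.univ.filter fun i => e i = -1).image g with hN
  have hdisj : Disjoint P N := by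
    rw [Finset.disjoint_left]
    intro x h1 h2
    rw [hP, Finset.mem_image] at h1
    rw [hN, Finset.mem_image] at h2
    obtain ⟨i, hi, rfl⟩ := h1
    obtain ⟨j, hj, hji⟩ := h2
    have := hinj hji
    subst this
    rw [Finset.mem_filter] at hi hj
    have := hi.2.symm.trans hj.2
    omega
  have hmem : ∀ γ ∈ P ∪ N, 0 < γ ∧ γ ≤ T ∧ riemannZeta (zr γ) = 0 := by
    intro γ hγ
    rw [Finset.mem_union, hP, hN, Finset.mem_image, Finset.mem_image] at hγ
    rcases hγ with ⟨i, _, rfl⟩ | ⟨i, _, rfl⟩ <;> exact hg i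
  have hcard : 2 ≤ (P ∪ N).card := by
    have h1 : (Finset.univ.filter fun i => e i ≠ 0).image g ⊆ P ∪ N := by
      intro x hx
      rw [Finset.mem_image] at hx
      obtain ⟨i, hi, rfl⟩ := hx
      rw [Finset.mem_filter] at hi
      have := he i
      unfold dg at this
      simp at this
      rw [Finset.mem_union, hP, hN, Finset.mem_image, Finset.mem_image]
      rcases this with h | h | h
      · exact Or.inr ⟨i, Finset.mem_filter.2 ⟨Finset.mem_univ _, h⟩, rfl⟩
      · exact absurd h hi.2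
      · exact Or.inl ⟨i, Finset.mem_filter.2 ⟨Finset.mem_univ _, h⟩, rfl⟩
    have h2 := Finset.card_le_card h1
    rw [Finset.card_image_of_injective _ hinj] at h2
    exact hc.trans h2
  have hsum : ∑ γ ∈ P, γ - ∑ γ ∈ N, γ = fr g e := by
    rw [hP, hN, Finset.sum_image hinj.injOn, Finset.sum_image hinj.injOn, Finset.sum_filter, Finset.sum_filter,
      ← Finset.sum_sub_distrib]
    unfold fr
    refine Finset.sum_congr rfl fun i _ => ?_
    have := he i
    unfold dg at this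
    simp at this
    rcases this with h | h | h <;> simp [h]
  have h1 := h P N hdisj hmem hcard
  rw [hsum] at h1
  exact ⟨h1.1, fun h2 => h1.2 h2.1⟩

lemma bdd_HS {B : ℝ} (h : ∀ᶠ v in atTop, |ft v| ≤ B) : HS ∧ Summable (fun ρ : NT => aa ρ) := by
  obtain ⟨v0, hv0⟩ := eventually_atTop.1 h
  set w : ℝ := max v0 0 with hw
  have hw0 : 0 ≤ w := le_max_right _ _
  set K : ℝ := ∫ v in (0:ℝ)..w, ft v ^ 2 with hK
  have hK0 : 0 ≤ K := intervalIntegral.integral_nonneg hw0 fun v _ => sq_nonneg _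
  refine of_bdd (C := K + B ^ 2) fun V hV => ?_
  have hV0 : 0 < V := by linarith
  unfold mn
  rw [div_le_iff₀ hV0]
  have i1 : IntervalIntegrable (fun v => ft v ^ 2) volume 0 w := ft_LB.sq.ii hw0
  have i2 : IntervalIntegrable (fun v => ft v ^ 2) volume 0 V := ft_LB.sq.ii hV0.le
  rcases le_total V w with hVw | hVw
  · have h1 : ∫ v in (0:ℝ)..V, ft v ^ 2 ≤ K := by
      rw [hK, ← intervalIntegral.integral_add_adjacent_intervals i2 (i2.symm.trans i1)]
      have := intervalIntegral.integral_nonneg (μ := volume) hVw fun v (_ : v ∈ Set.Icc V w) => sq_nonneg (ft v)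
      linarith
    nlinarith [sq_nonneg B]
  · rw [← intervalIntegral.integral_add_adjacent_intervals i1 (i1.symm.trans i2), ← hK]
    have h1 : ∫ v in w..V, ft v ^ 2 ≤ ∫ v in w..V, B ^ 2 := by
      refine intervalIntegral.integral_mono_on hVw (i1.symm.trans i2) intervalIntegrable_const fun v hv => ?_
      rw [← sq_abs (ft v)]
      exact pow_le_pow_left₀ (abs_nonneg _) (hv0 v ((le_max_left _ _).trans hv.1)) 2
    rw [intervalIntegral.integral_const, smul_eq_mul] at h1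
    nlinarith [sq_nonneg B]

/-- the main step -/
lemma step {ε : ℝ} (hε : 0 < ε) : ∀ᶠ T : ℝ in atTop, NR T → HS → Summable (fun ρ : NT => aa ρ) →
    ∀ σ : ℝ, σ = 1 ∨ σ = -1 → ¬ ∀ᶠ v in atTop, σ * ft v ≤ Real.log T ^ (5 / 4 - ε) := by
  classical
  filter_upwards [amp (show 0 < ε / 2 by positivity), Real.tendsto_log_atTop.eventually_gt_atTop 1] with T hT hL
  intro hN hHS hsum σ hσ hA
  obtain ⟨Z, hZ1, hZ2⟩ := hT
  have hzr : ∀ ρ ∈ Z, zr ρ.im = ρ := fun ρ hρ => by
    apply Complex.ext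
    · rw [(hZ1 ρ hρ).2.1]; rfl
    · rfl
  have hinj : Function.Injective (fun i : {x // x ∈ Z} => (i : ℂ).im) := by
    intro i j h
    apply Subtype.ext
    rw [← hzr i i.2, ← hzr j j.2]
    exact congrArg zr h
  have hg : ∀ i : {x // x ∈ Z}, 0 < (i : ℂ).im ∧ (i : ℂ).im ≤ T ∧ riemannZeta (zr (i : ℂ).im) = 0 := fun i => by
    rw [hzr i i.2]
    exact ⟨(hZ1 i i.2).2.2.1, (hZ1 i i.2).2.2.2.1, (hZ1 i i.2).1⟩
  have h1 := bound hHS hsum (g := fun i : {x // x ∈ Z} => (i : ℂ).im) (fun i => (hg i).1)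
    (fun i => zr_NT.2 (hg i).2.2) (free_of hN hinj hg) hσ hA
  have h2 : ∑ i : {x // x ∈ Z}, ‖ww (zr (i : ℂ).im)‖ = ∑ ρ ∈ Z, ‖ww ρ‖ := by
    rw [← Finset.sum_coe_sort Z (fun ρ => ‖ww ρ‖)]
    exact Finset.sum_congr rfl fun i _ => by rw [hzr i i.2]
  rw [h2] at h1
  have h3 : Real.log T ^ (5 / 4 - ε) < Real.log T ^ (5 / 4 - ε / 2) :=
    Real.rpow_lt_rpow_of_exponent_lt hL (by linarith)
  linarith

end Pool.Agent.H362.QI
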