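import Pool.Agent.H362.QI.Riesz
import Pool.Agent.H362.QI.Amp
import Pool.Agent.H313.ZC.Conj

set_option autoImplicit false

/-! # The mean value of `M(e^v) e^(-v/2)` times a Riesz product -/

namespace Pool.Agent.H362.QI

open MeasureTheory Filter Topology Set
open Pool.Agent.W120.WM (NT)
open Pool.Agent.H295R2 (ww ee)
open Pool.Agent.TH223.AP
open Pool.Agent.H313.ZC (HS aa fz fz_mem fz_sum dist_fin exists_fz im_ne)

/-- the zero with ordinate `γ` -/
noncomputable def zr (γ : ℝ) : ℂ := ⟨1 / 2, γ⟩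

lemma zr_conj (γ : ℝ) : zr (-γ) = (starRingEnd ℂ) (zr γ) := by
  apply Complex.ext <;> simp [zr]

lemma zr_ne (γ : ℝ) : zr γ ≠ 1 := by
  intro h
  have := congrArg Complex.re h
  simp [zr] at this

lemma zr_NT {γ : ℝ} : zr γ ∈ NT ↔ riemannZeta (zr γ) = 0 := by
  constructor
  · exact fun h => h.1
  · intro h
    exact ⟨h, by simp [zr], by simp [zr]; norm_num⟩

lemma zr_neg {γ : ℝ} (h : zr γ ∈ NT) : zr (-γ) ∈ NT := by
  rw [zr_NT] at h ⊢
  rw [zr_conj, riemannZeta_conj, h, map_zero]

lemma ww_neg (γ : ℝ) : ww (zr (-γ)) = (starRingEnd ℂ) (ww (zr γ)) := by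
  unfold Pool.Agent.H295R2.ww
  rw [zr_conj, Pool.Agent.H313.ZC.Conj.t_conj.2 _ (zr_ne γ), ← map_mul, map_div₀, map_one]

lemma ww_ne (hHS : HS) {γ : ℝ} (h : zr γ ∈ NT) : ww (zr γ) ≠ 0 := by
  unfold Pool.Agent.H295R2.ww
  refine one_div_ne_zero (mul_ne_zero ?_ (hHS _ h).2)
  intro h0
  have := congrArg Complex.re h0
  simp [zr] at this

variable {n : Type} [Fintype n] [DecidableEq n]

/-- there is no relation with coefficients `0, 1, -1` -/
def Free (g : n → ℝ) : Prop := ∀ e : n → ℤ, (∀ i, e i ∈ dg) → 2 ≤ (Finset.univ.filter fun i => e i ≠ 0).card →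
  fr g e ≠ 0 ∧ zr (fr g e) ∉ NT

lemma dg_neg {a : ℤ} (h : a ∈ dg) : -a ∈ dg := by
  unfold dg at h ⊢
  simp at h ⊢
  omega

lemma fr_neg (g : n → ℝ) (e : n → ℤ) : fr g (fun i => - e i) = - fr g e := by
  unfold fr
  rw [← Finset.sum_neg_distrib]
  exact Finset.sum_congr rfl fun i _ => by push_cast; ring

/-- digits with at most one nonzero entry -/
lemma cases_dg {e : n → ℤ} (he : ∀ i, e i ∈ dg) (hc : ¬ 2 ≤ (Finset.univ.filter fun i => e i ≠ 0).card) :
    e = 0 ∨ ∃ p ∈ (Finset.univ : Finset n) ×ˢ ({-1, 1} : Finset ℤ), sg p = e := by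
  by_cases h0 : e = 0
  · exact Or.inl h0
  · right
    obtain ⟨i, hi⟩ : ∃ i, e i ≠ 0 := by
      by_contra h
      push Not at h
      exact h0 (funext h)
    refine ⟨(i, e i), ?_, ?_⟩
    · rw [Finset.mem_product]
      refine ⟨Finset.mem_univ _, ?_⟩
      have := he i
      unfold dg at this
      simp at this ⊢
      omega
    · unfold sg
      funext j
      by_cases hj : j = i
      · subst hj; simp
      · simp only
        rw [Pi.single_eq_of_ne hj]
        by_contra hne
        apply hc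
        have h2 : ({i, j} : Finset n) ⊆ Finset.univ.filter fun i => e i ≠ 0 := by
          intro k hk
          rw [Finset.mem_insert, Finset.mem_singleton] at hk
          rw [Finset.mem_filter]
          rcases hk with rfl | rfl
          · exact ⟨Finset.mem_univ _, hi⟩
          · exact ⟨Finset.mem_univ _, fun h => hne h.symm⟩
        have h3 := Finset.card_le_card h2
        rwa [Finset.card_pair (Ne.symm hj)] at h3

lemma mn_re' {G : ℝ → ℂ} (hG : Continuous G) (V : ℝ) :
    mn (fun v => (G v).re) V = (cm G V).re := by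
  unfold mn cm
  rw [Complex.div_ofReal_re]
  congr 1
  have h := Complex.reCLM.intervalIntegral_comp_comm (μ := volume) (hG.intervalIntegrable 0 V)
  simpa using h

/-- the mean value of the Riesz product is `1` -/
lemma mean_rz {g : n → ℝ} (hpos : ∀ i, 0 < g i) (hF : Free g) (b : n → ℂ) :
    Tendsto (mn (rz g b)) atTop (𝓝 1) := by
  have h1 := cm_sum (Fintype.piFinset (fun _ : n => dg)) (cf b) (fr g)
  have h2 : ∑ e ∈ Fintype.piFinset (fun _ : n => dg), (if fr g e = 0 then cf b e else 0) = 1 := by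
    rw [Finset.sum_eq_single 0]
    · have : fr g 0 = 0 := by simp [fr]
      rw [if_pos this]
      simp [cf, bc]
    · intro e he hne
      rw [if_neg]
      rw [Fintype.mem_piFinset] at he
      by_cases hc : 2 ≤ (Finset.univ.filter fun i => e i ≠ 0).card
      · exact (hF e he hc).1
      · rcases cases_dg he hc with h | ⟨⟨i, a⟩, hp, rfl⟩
        · exact absurd h hne
        · rw [fr_single]
          rw [Finset.mem_product] at hp
          have ha := hp.2
          simp at ha
          have hg := hpos i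
          rcases ha with h | h <;> simp [h, hg.ne']
    · intro h
      exact absurd (Fintype.mem_piFinset.2 fun i => by simp [dg]) h
  rw [h2] at h1
  have h3 := (Complex.continuous_re.tendsto _).comp h1
  rw [Complex.one_re] at h3
  refine h3.congr fun V => ?_
  simp only [Function.comp]
  rw [← mn_re' (by
    refine continuous_finsetSum _ fun e _ => ?_
    exact ((ex_cont _).const_mul _))]
  congr 1
  funext v
  rw [← rz_expand, Complex.ofReal_re]

/-- the mean value with a partial sum of the explicit formula -/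
lemma mean_prod (hHS : HS) {g : n → ℝ} (hz : ∀ i, zr (g i) ∈ NT) (hF : Free g) (b : n → ℂ)
    (Z : Finset ℂ) (hZ : ∀ ρ ∈ Z, ρ ∈ NT) (hZ1 : ∀ i, zr (g i) ∈ Z) (hZ2 : ∀ i, zr (- g i) ∈ Z) :
    Tendsto (mn fun v => (∑ ρ ∈ Z, ww ρ * ee ρ v).re * rz g b v) atTop
      (𝓝 (∑ i, 2 * ((starRingEnd ℂ) (b i) * ww (zr (g i))).re)) := by
  classical
  have hre : ∀ ρ ∈ Z, ρ = zr ρ.im := fun ρ hρ => by
    apply Complex.ext
    · rw [(hHS ρ (hZ ρ hρ)).1]; rfl
    · rfl
  have hex : ∀ ρ ∈ Z, ∀ v, ee ρ v = ex ρ.im v := by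
    intro ρ hρ v
    unfold Pool.Agent.H295R2.ee ex
    congr 2
    nth_rewrite 1 [hre ρ hρ]
    apply Complex.ext <;> simp [zr]
  have h1 := cm_sum (Z ×ˢ Fintype.piFinset (fun _ : n => dg)) (fun p => ww p.1 * cf b p.2)
    (fun p => p.1.im + fr g p.2)
  set F : (n → ℤ) → ℂ := fun e => ∑ ρ ∈ Z, if ρ.im + fr g e = 0 then ww ρ * cf b e else 0 with hFdef
  have hval : ∀ e : n → ℤ, ∀ γ : ℝ, fr g e = -γ → zr γ ∈ Z → F e = ww (zr γ) * cf b e := by
    intro e γ h2 h3
    rw [hFdef]
    beta_reduce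
    rw [Finset.sum_eq_single (zr γ)]
    · rw [if_pos]
      show γ + fr g e = 0
      rw [h2]; ring
    · intro ρ hρ hne
      rw [if_neg]
      intro h
      apply hne
      rw [hre ρ hρ]
      congr 1
      linarith
    · exact fun h => absurd h3 h
  have h2 : ∑ p ∈ Z ×ˢ Fintype.piFinset (fun _ : n => dg),
      (if p.1.im + fr g p.2 = 0 then ww p.1 * cf b p.2 else 0) =
      ∑ i, (F (sg (i, -1)) + F (sg (i, 1))) := by
    rw [Finset.sum_product, Finset.sum_comm]
    refine sum_single fun e he hne => ?_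
    rw [Fintype.mem_piFinset] at he
    obtain ⟨ρ, hρ, h3⟩ := Finset.exists_ne_zero_of_sum_ne_zero hne
    have h4 : ρ.im + fr g e = 0 := by
      by_contra h
      exact h3 (if_neg h)
    have h5 : zr (fr g (fun i => - e i)) ∈ NT := by
      rw [fr_neg]
      have : ρ.im = - fr g e := by linarith
      rw [← this, ← hre ρ hρ]
      exact hZ ρ hρ
    have hc : ¬ 2 ≤ (Finset.univ.filter fun i => e i ≠ 0).card := by
      intro hc
      refine (hF (fun i => - e i) (fun i => dg_neg (he i)) ?_).2 h5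
      simpa using hc
    rcases cases_dg he hc with h | h
    · exfalso
      subst h
      have : fr g 0 = 0 := by simp [fr]
      rw [this, add_zero] at h4
      exact im_ne (hZ ρ hρ) h4
    · exact h
  have h3 : ∀ i, F (sg (i, -1)) + F (sg (i, 1)) = ((2 * ((starRingEnd ℂ) (b i) * ww (zr (g i))).re : ℝ) : ℂ) := by
    intro i
    rw [hval (sg (i, -1)) (g i) (by rw [fr_single]; simp) (hZ1 i),
      hval (sg (i, 1)) (- g i) (by rw [fr_single]; simp) (hZ2 i), cf_single, cf_single, ww_neg]
    have e1 : bc b i (-1) = (starRingEnd ℂ) (b i) := by simp [bc]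
    have e2 : bc b i 1 = b i := by simp [bc]
    rw [e1, e2]
    have e3 : (starRingEnd ℂ) (ww (zr (g i))) * b i = (starRingEnd ℂ) (ww (zr (g i)) * (starRingEnd ℂ) (b i)) := by
      rw [map_mul, Complex.conj_conj]
    rw [e3, Complex.add_conj, mul_comm (ww (zr (g i)))]
  rw [h2, Finset.sum_congr rfl fun i _ => h3 i, ← Complex.ofReal_sum] at h1
  have h4 := (Complex.continuous_re.tendsto _).comp h1
  rw [Complex.ofReal_re] at h4
  refine h4.congr fun V => ?_
  simp only [Function.comp]
  rw [← mn_re' (by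
    refine continuous_finsetSum _ fun e _ => ?_
    exact ((ex_cont _).const_mul _))]
  congr 1
  funext v
  have e1 : ∑ p ∈ Z ×ˢ Fintype.piFinset (fun _ : n => dg), (ww p.1 * cf b p.2) * ex (p.1.im + fr g p.2) v =
      (∑ ρ ∈ Z, ww ρ * ee ρ v) * ((rz g b v : ℝ) : ℂ) := by
    rw [rz_expand, Finset.sum_mul_sum, Finset.sum_product]
    refine Finset.sum_congr rfl fun ρ hρ => Finset.sum_congr rfl fun e _ => ?_
    rw [ex_add, hex ρ hρ]
    ring
  rw [e1, Complex.re_mul_ofReal]

end Pool.Agent.H362.QI
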