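import Pool.Agent.H362.QI.Fin
import Pool.Graph.R_pool_sql_team_seeded_1acbe0a2.Y853.HM.Low

set_option autoImplicit false

/-! # One-sided bounds for `M(e^v) e^(-v/2)` -/

namespace Pool.Agent.H362.QI

open MeasureTheory Filter Topology Set
open Pool.Agent.W120.WM (NT)
open Pool.Agent.H295R2 (ww)
open Pool.Agent.TH223.AP (ft ex ex_cont norm_ex)
open Pool.Agent.W263.BSD (LInt)

lemma zr_pt (γ : ℝ) : zr γ = Pool.Agent.Y853.HM.pt γ := by
  apply Complex.ext <;> simp [zr, Pool.Agent.Y853.HM.pt]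

lemma ex_ee (l v : ℝ) : ex l v = Pool.Agent.Y853.HM.ee (-l) v := by
  unfold ex Pool.Agent.Y853.HM.ee
  congr 1
  push_cast
  ring

lemma exp_ex {l δ : ℝ} (hδ : 0 < δ) :
    IntegrableOn (fun v : ℝ => Complex.exp (-(δ * v)) * ex l v) (Ioi 0) ∧
    ∫ v in Ioi (0:ℝ), Complex.exp (-(δ * v)) * ex l v = 1 / (δ - l * Complex.I) := by
  have e1 : ∀ v : ℝ, Complex.exp (-(δ * v)) * ex l v = Complex.exp ((-δ + l * Complex.I) * v) := by
    intro v
    unfold Pool.Agent.TH223.AP.ex
    rw [← Complex.exp_add]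
    congr 1
    ring
  have hre : (-δ + l * Complex.I : ℂ).re < 0 := by simp; exact hδ
  simp only [e1]
  refine ⟨integrableOn_exp_mul_complex_Ioi hre 0, ?_⟩
  rw [integral_exp_mul_complex_Ioi hre]
  have hne : (-δ + l * Complex.I : ℂ) ≠ 0 := by
    intro h
    rw [h] at hre
    simp at hre
  have hne2 : (δ - l * Complex.I : ℂ) ≠ 0 := by
    intro h
    apply hne
    linear_combination -h
  simp only [Complex.ofReal_zero, mul_zero, Complex.exp_zero]
  rw [div_eq_div_iff hne hne2]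
  ring

lemma abel_ex (l : ℝ) : Tendsto (fun δ : ℝ => (δ : ℂ) * ∫ v in Ioi (0:ℝ), Complex.exp (-(δ * v)) * ex l v)
    (𝓝[>] 0) (𝓝 (if l = 0 then 1 else 0)) := by
  by_cases hl : l = 0
  · rw [if_pos hl]
    refine tendsto_const_nhds.congr' ?_
    filter_upwards [self_mem_nhdsWithin] with δ hδ
    have hδ0 : (0 : ℝ) < δ := hδ
    have hδc : (δ : ℂ) ≠ 0 := by exact_mod_cast hδ0.ne'
    rw [(exp_ex hδ0).2, hl]
    simp [hδc]
  · rw [if_neg hl]
    have hne : ((0 : ℝ) : ℂ) - l * Complex.I ≠ 0 := by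
      rw [Complex.ofReal_zero, zero_sub]
      exact neg_ne_zero.2 (mul_ne_zero (by exact_mod_cast hl) Complex.I_ne_zero)
    have h0 : Tendsto (fun δ : ℝ => (δ : ℂ)) (𝓝[>] 0) (𝓝 ((0 : ℝ) : ℂ)) :=
      (Complex.continuous_ofReal.tendsto 0).mono_left nhdsWithin_le_nhds
    have h1 := h0.div (h0.sub_const ((l : ℂ) * Complex.I)) hne
    rw [Complex.ofReal_zero, zero_div] at h1
    refine h1.congr' ?_
    filter_upwards [self_mem_nhdsWithin] with δ hδ
    rw [(exp_ex (show (0:ℝ) < δ from hδ)).2]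
    simp [div_eq_mul_inv]

variable {n : Type} [Fintype n] [DecidableEq n]

/-- the constant term of the Riesz product -/
lemma const_term {g : n → ℝ} (hpos : ∀ i, 0 < g i) (hF : Free g) (b : n → ℂ) :
    ∑ e ∈ Fintype.piFinset (fun _ : n => dg), cf b e * (if fr g e = 0 then (1:ℂ) else 0) = 1 := by
  rw [Finset.sum_eq_single 0]
  · have : fr g 0 = 0 := by simp [fr]
    rw [if_pos this]
    simp [cf, bc]
  · intro e he hne
    rw [if_neg, mul_zero]
    rw [Fintype.mem_piFinset] at he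
    by_cases hc : 2 ≤ (Finset.univ.filter fun i => e i ≠ 0).card
    · exact (hF e he hc).1
    · rcases cases_dg he hc with h | ⟨⟨i, a⟩, hp, rfl⟩
      · exact absurd h hne
      · rw [fr_single]
        rw [Finset.mem_product] at hp
        have ha := hp.2
        simp at ha
        have hg := hpos i
        rcases ha with h | h <;> simp [h, hg.ne']
  · intro h
    exact absurd (Fintype.mem_piFinset.2 fun i => by simp [dg]) h

/-- the Abel mean of the Riesz product is `1` -/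
lemma abel_rz {g : n → ℝ} (hpos : ∀ i, 0 < g i) (hF : Free g) (b : n → ℂ) :
    Tendsto (fun δ : ℝ => δ * ∫ v in Ioi (0:ℝ), Real.exp (-(δ * v)) * rz g b v) (𝓝[>] 0) (𝓝 1) := by
  have h1 : Tendsto (fun δ : ℝ => ∑ e ∈ Fintype.piFinset (fun _ : n => dg),
      cf b e * ((δ : ℂ) * ∫ v in Ioi (0:ℝ), Complex.exp (-(δ * v)) * ex (fr g e) v)) (𝓝[>] 0)
      (𝓝 (∑ e ∈ Fintype.piFinset (fun _ : n => dg), cf b e * (if fr g e = 0 then (1:ℂ) else 0))) :=
    tendsto_finsetSum _ fun e _ => (abel_ex _).const_mul _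
  rw [const_term hpos hF b] at h1
  have h3 := (Complex.continuous_re.tendsto _).comp h1
  rw [Complex.one_re] at h3
  refine h3.congr' ?_
  filter_upwards [self_mem_nhdsWithin] with δ hδ
  have hδ0 : (0 : ℝ) < δ := hδ
  simp only [Function.comp]
  have e1 : ∑ e ∈ Fintype.piFinset (fun _ : n => dg),
      cf b e * ((δ : ℂ) * ∫ v in Ioi (0:ℝ), Complex.exp (-(δ * v)) * ex (fr g e) v) =
      (δ : ℂ) * ∫ v in Ioi (0:ℝ), Complex.exp (-(δ * v)) * ((rz g b v : ℝ) : ℂ) := by
    have e2 : ∀ v : ℝ, Complex.exp (-(δ * v)) * ((rz g b v : ℝ) : ℂ) =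
        ∑ e ∈ Fintype.piFinset (fun _ : n => dg), cf b e * (Complex.exp (-(δ * v)) * ex (fr g e) v) := by
      intro v
      rw [rz_expand, Finset.mul_sum]
      exact Finset.sum_congr rfl fun e _ => by ring
    simp only [e2]
    rw [integral_finsetSum _ fun e _ => (exp_ex hδ0).1.const_mul _, Finset.mul_sum]
    refine Finset.sum_congr rfl fun e _ => ?_
    rw [integral_const_mul]
    ring
  rw [e1]
  have e3 : ∫ v in Ioi (0:ℝ), Complex.exp (-(δ * v)) * ((rz g b v : ℝ) : ℂ) =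
      ((∫ v in Ioi (0:ℝ), Real.exp (-(δ * v)) * rz g b v : ℝ) : ℂ) := by
    rw [← integral_complex_ofReal]
    congr 1
    funext v
    push_cast
    rfl
  rw [e3, ← Complex.ofReal_mul, Complex.ofReal_re]

lemma rz_int {g : n → ℝ} {b : n → ℂ} (hb : ∀ i, ‖b i‖ ≤ 1 / 2) {δ : ℝ} (hδ : 0 < δ) :
    IntegrableOn (fun v : ℝ => Real.exp (-(δ * v)) * rz g b v) (Ioi 0) := by
  have h1 : IntegrableOn (fun v : ℝ => Real.exp (-(δ * v))) (Ioi 0) := by
    have := exp_neg_integrableOn_Ioi 0 hδ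
    simpa only [neg_mul] using this
  refine Integrable.mul_bdd (c := 2 ^ Fintype.card n) h1 (rz_cont g b).aestronglyMeasurable
    (Eventually.of_forall fun v => ?_)
  rw [Real.norm_of_nonneg (rz_nonneg g hb v)]
  exact rz_le g hb v

/-- the Abel mean of `f` times the Riesz product -/
lemma hm_rz (h : ∀ w > (1 / 2 : ℝ), LInt Pool.Agent.Y853.HM.g w)
    (hs : ∀ t : ℝ, riemannZeta (Pool.Agent.Y853.HM.pt t) = 0 → deriv riemannZeta (Pool.Agent.Y853.HM.pt t) ≠ 0)
    {g : n → ℝ} (hz : ∀ i, zr (g i) ∈ NT) (hF : Free g) (b : n → ℂ) :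
    Pool.Agent.Y853.HM.HM (fun v => ((rz g b v : ℝ) : ℂ))
      ((∑ i, 2 * ((starRingEnd ℂ) (b i) * ww (zr (g i))).re : ℝ) : ℂ) := by
  classical
  have hcf : ∀ i, Pool.Agent.Y853.HM.cf (g i) = ww (zr (g i)) := by
    intro i
    unfold Pool.Agent.Y853.HM.cf Pool.Agent.H295R2.ww
    rw [if_pos (by rw [← zr_pt]; exact (zr_NT.1 (hz i))), zr_pt]
  have h1 : Pool.Agent.Y853.HM.HM (fun v => ∑ e ∈ Fintype.piFinset (fun _ : n => dg),
      cf b e * Pool.Agent.Y853.HM.ee (-(fr g e)) v)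
      (∑ e ∈ Fintype.piFinset (fun _ : n => dg), cf b e * Pool.Agent.Y853.HM.cf (-(fr g e))) :=
    Pool.Agent.Y853.HM.HM.sum h _ fun e _ => (Pool.Agent.Y853.HM.HM_ee h _ (hs _)).const_mul _
  have h2 : (fun v => ((rz g b v : ℝ) : ℂ)) = fun v => ∑ e ∈ Fintype.piFinset (fun _ : n => dg),
      cf b e * Pool.Agent.Y853.HM.ee (-(fr g e)) v := by
    funext v
    rw [rz_expand]
    exact Finset.sum_congr rfl fun e _ => by rw [ex_ee]
  have h3 : ∑ e ∈ Fintype.piFinset (fun _ : n => dg), cf b e * Pool.Agent.Y853.HM.cf (-(fr g e)) =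
      ((∑ i, 2 * ((starRingEnd ℂ) (b i) * ww (zr (g i))).re : ℝ) : ℂ) := by
    rw [sum_single (F := fun e => cf b e * Pool.Agent.Y853.HM.cf (-(fr g e))) fun e he hne => ?_]
    · rw [Complex.ofReal_sum]
      refine Finset.sum_congr rfl fun i _ => ?_
      rw [fr_single, fr_single, cf_single, cf_single]
      have e0 : -(((-1 : ℤ) : ℝ) * g i) = g i := by push_cast; ring
      have e0' : -(((1 : ℤ) : ℝ) * g i) = - g i := by push_cast; ring
      rw [e0, e0', Pool.Agent.Y853.HM.cf_neg h hs, hcf]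
      have e1 : bc b i (-1) = (starRingEnd ℂ) (b i) := by simp [bc]
      have e2 : bc b i 1 = b i := by simp [bc]
      rw [e1, e2]
      have e3 : b i * (starRingEnd ℂ) (ww (zr (g i))) = (starRingEnd ℂ) ((starRingEnd ℂ) (b i) * ww (zr (g i))) := by
        rw [map_mul, Complex.conj_conj]
      rw [e3, Complex.add_conj]
    · rw [Fintype.mem_piFinset] at he
      have h4 : Pool.Agent.Y853.HM.cf (-(fr g e)) ≠ 0 := right_ne_zero_of_mul hne
      have h5 : riemannZeta (zr (-(fr g e))) = 0 := by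
        by_contra hcon
        apply h4
        unfold Pool.Agent.Y853.HM.cf
        rw [if_neg (by rw [← zr_pt]; exact hcon)]
      have h6 := zr_neg (zr_NT.2 h5)
      rw [neg_neg] at h6
      have hc : ¬ 2 ≤ (Finset.univ.filter fun i => e i ≠ 0).card := fun hc => (hF e he hc).2 h6
      rcases cases_dg he hc with h | h
      · exfalso
        subst h
        have : fr g 0 = 0 := by simp [fr]
        rw [this] at h6
        exact Pool.Agent.H313.ZC.im_ne h6 rfl
      · exact h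
  rw [h2, ← h3]
  exact h1

/-- a one-sided bound for `f` gives all that is needed -/
lemma one_sided {σ A : ℝ} (hσ : σ = 1 ∨ σ = -1) (hA : ∀ᶠ v in atTop, σ * ft v ≤ A) :
    ∃ v0 : ℝ, 0 ≤ v0 ∧ (∀ v, v0 ≤ v → σ * ft v ≤ A) ∧ (∀ v, 0 ≤ v → v ≤ v0 → |ft v| ≤ Real.exp v0) ∧
      (∀ w > (1 / 2 : ℝ), LInt Pool.Agent.Y853.HM.g w) ∧
      ∀ t : ℝ, riemannZeta (Pool.Agent.Y853.HM.pt t) = 0 → deriv riemannZeta (Pool.Agent.Y853.HM.pt t) ≠ 0 := by
  obtain ⟨v1, hv1⟩ := eventually_atTop.1 hA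
  set v0 : ℝ := max v1 0 with hv0
  have h00 : 0 ≤ v0 := le_max_right _ _
  have hup : ∀ v, v0 ≤ v → σ * ft v ≤ A := fun v hv => hv1 v ((le_max_left _ _).trans hv)
  have hlow : ∀ v, 0 ≤ v → v ≤ v0 → |ft v| ≤ Real.exp v0 := by
    intro v h1 h2
    have h3 := Pool.Agent.Y853.HM.g_abs v
    have h4 : ft v = Pool.Agent.Y853.HM.g v * Real.exp (-(v / 2)) := rfl
    rw [h4, abs_mul, abs_of_pos (Real.exp_pos _)]
    have h5 : Real.exp (-(v / 2)) ≤ 1 := Real.exp_le_one_iff.2 (by linarith)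
    calc |Pool.Agent.Y853.HM.g v| * Real.exp (-(v / 2)) ≤ Real.exp v * 1 :=
          mul_le_mul h3 h5 (Real.exp_pos _).le (Real.exp_pos _).le
      _ ≤ Real.exp v0 := by rw [mul_one]; exact Real.exp_le_exp.2 h2
  set K : ℝ := |A| + Real.exp v0 with hK
  have hK0 : 0 ≤ K := by positivity
  have hσa : |σ| = 1 := by rcases hσ with h | h <;> rw [h] <;> simp
  have hmax : ∀ v, 0 ≤ v → max (σ * Pool.Agent.Y853.HM.f v) 0 ≤ K := by
    intro v hv
    refine max_le ?_ hK0
    show σ * ft v ≤ K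
    rcases le_total v0 v with h1 | h1
    · have := hup v h1
      have := le_abs_self A
      have := Real.exp_pos v0
      linarith
    · have h2 := hlow v hv h1
      have h3 : σ * ft v ≤ |ft v| := by
        have := le_abs_self (σ * ft v)
        rwa [abs_mul, hσa, one_mul] at this
      have := abs_nonneg A
      linarith
  have hab : ∀ δ : ℝ, 0 < δ → Pool.Agent.Y853.HM.abelMean σ δ ≤ ENNReal.ofReal K := by
    intro δ hδ
    unfold Pool.Agent.Y853.HM.abelMean
    have hI : IntegrableOn (fun v : ℝ => Real.exp (-(δ * v))) (Ioi 0) := by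
      have := exp_neg_integrableOn_Ioi 0 hδ
      simpa only [neg_mul] using this
    have hI2 : ∫ v in Ioi (0:ℝ), Real.exp (-(δ * v)) = 1 / δ := by
      have := integral_exp_mul_Ioi (show -δ < 0 by linarith) 0
      simpa [neg_div_neg_eq] using this
    have h1 : ∫⁻ v in Ioi (0 : ℝ), ENNReal.ofReal (max (σ * Pool.Agent.Y853.HM.f v) 0 * Real.exp (-(δ * v))) ≤
        ∫⁻ v in Ioi (0 : ℝ), ENNReal.ofReal (K * Real.exp (-(δ * v))) := by
      refine setLIntegral_mono' measurableSet_Ioi fun v hv => ENNReal.ofReal_le_ofReal ?_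
      exact mul_le_mul_of_nonneg_right (hmax v (le_of_lt hv)) (Real.exp_pos _).le
    refine (mul_le_mul_right h1 _).trans ?_
    rw [← ofReal_integral_eq_lintegral_ofReal (hI.const_mul K)
      (Eventually.of_forall fun v => mul_nonneg hK0 (Real.exp_pos _).le), integral_const_mul, hI2,
      ← ENNReal.ofReal_mul hδ.le]
    refine ENNReal.ofReal_le_ofReal (le_of_eq ?_)
    field_simp
  have hlm : Pool.Agent.Y853.HM.lowerMean σ ≤ ENNReal.ofReal K := by
    unfold Pool.Agent.Y853.HM.lowerMean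
    refine liminf_le_of_frequently_le ?_ (by isBoundedDefault)
    refine Eventually.frequently ?_
    filter_upwards [self_mem_nhdsWithin] with δ hδ
    exact hab δ hδ
  have hne : Pool.Agent.Y853.HM.lowerMean σ ≠ ⊤ := (hlm.trans_lt ENNReal.ofReal_lt_top).ne
  have hL := Pool.Agent.Y853.HM.lint_g hσ (Pool.Agent.Y853.HM.lint_all hne)
  have hN := Pool.Agent.Y853.HM.N_freq hσ hne (show (0:ℝ) < 1 by norm_num)
  exact ⟨v0, h00, hup, hlow, hL, fun t ht => Pool.Agent.Y853.HM.simple hL hN t ht⟩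

theorem bound1 {g : n → ℝ} (hpos : ∀ i, 0 < g i) (hz : ∀ i, zr (g i) ∈ NT) (hF : Free g) {σ A : ℝ}
    (hσ : σ = 1 ∨ σ = -1) (hA : ∀ᶠ v in atTop, σ * ft v ≤ A) : ∑ i, ‖ww (zr (g i))‖ ≤ A := by
  classical
  obtain ⟨v0, h00, hup, hlow, hL, hs⟩ := one_sided hσ hA
  have hσσ : σ * σ = 1 := by rcases hσ with h | h <;> rw [h] <;> norm_num
  have hσa : |σ| = 1 := by rcases hσ with h | h <;> rw [h] <;> simp
  set S : ℝ := ∑ i, ‖ww (zr (g i))‖ with hS
  set b : n → ℂ := fun i => (σ / (2 * ‖ww (zr (g i))‖) : ℝ) * ww (zr (g i)) with hb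
  have hwp : ∀ i, 0 < ‖ww (zr (g i))‖ := fun i => norm_pos_iff.2 (by
    unfold Pool.Agent.H295R2.ww
    refine one_div_ne_zero (mul_ne_zero ?_ ?_)
    · intro h0
      have := congrArg Complex.re h0
      simp [zr] at this
    · have h1 := zr_NT.1 (hz i)
      rw [zr_pt] at h1 ⊢
      exact hs _ h1)
  have hbn : ∀ i, ‖b i‖ ≤ 1 / 2 := by
    intro i
    rw [hb]
    beta_reduce
    have := hwp i
    rw [norm_mul, Complex.norm_real, Real.norm_eq_abs, abs_div, hσa, abs_of_pos (by positivity)]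
    apply le_of_eq
    field_simp
  have hbv : ∀ i, 2 * ((starRingEnd ℂ) (b i) * ww (zr (g i))).re = σ * ‖ww (zr (g i))‖ := by
    intro i
    rw [hb]
    beta_reduce
    have h0 := hwp i
    rw [map_mul, Complex.conj_ofReal, mul_assoc, Complex.re_ofReal_mul, mul_comm ((starRingEnd ℂ) _), Complex.mul_conj,
      Complex.ofReal_re, Complex.normSq_eq_norm_sq]
    field_simp
  set B : ℝ := 2 ^ Fintype.card n with hB
  have hB0 : 0 < B := by positivity
  have hHM := hm_rz hL hs hz hF b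
  have hval : ∑ i, 2 * ((starRingEnd ℂ) (b i) * ww (zr (g i))).re = σ * S := by
    rw [Finset.sum_congr rfl fun i _ => hbv i, ← Finset.mul_sum]
  rw [hval] at hHM
  -- the real integrals
  set j : ℝ → ℝ := fun δ => ∫ v in Ioi (0:ℝ), ft v * Real.exp (-(δ * v)) * rz g b v with hj
  have hpt : ∀ δ v : ℝ, ((Pool.Agent.Y853.HM.g v * Real.exp (-((1 / 2 + δ) * v)) : ℝ) : ℂ) * ((rz g b v : ℝ) : ℂ) =
      ((ft v * Real.exp (-(δ * v)) * rz g b v : ℝ) : ℂ) := by
    intro δ v
    have h4 : ft v = Pool.Agent.Y853.HM.g v * Real.exp (-(v / 2)) := rfl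
    rw [← Complex.ofReal_mul]
    congr 2
    rw [h4, mul_assoc, ← Real.exp_add]
    congr 2
    ring
  have hJ : ∀ δ : ℝ, Pool.Agent.Y853.HM.J (fun v => ((rz g b v : ℝ) : ℂ)) δ = ((j δ : ℝ) : ℂ) := by
    intro δ
    unfold Pool.Agent.Y853.HM.J
    simp only [hpt]
    rw [hj]
    exact integral_complex_ofReal
  have hJint : ∀ δ : ℝ, 0 < δ → IntegrableOn (fun v => ft v * Real.exp (-(δ * v)) * rz g b v) (Ioi 0) := by
    intro δ hδ
    have h1 := Pool.Agent.Y853.HM.J_int hL (F := fun v => ((rz g b v : ℝ) : ℂ))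
      (Complex.continuous_ofReal.comp (rz_cont g b)) (B := B) (fun v => by
        rw [Complex.norm_real, Real.norm_of_nonneg (rz_nonneg g hbn v)]
        exact rz_le g hbn v) hδ
    simp only [hpt] at h1
    exact_mod_cast h1.re
  have l1 : Tendsto (fun δ : ℝ => δ * j δ) (𝓝[>] 0) (𝓝 (σ * S)) := by
    have h1 := hHM.2.2
    simp only [hJ] at h1
    have h2 := (Complex.continuous_re.tendsto _).comp h1
    rw [Complex.ofReal_re] at h2
    refine h2.congr fun δ => ?_
    simp only [Function.comp]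
    rw [← Complex.ofReal_mul, Complex.ofReal_re]
  have l2 := abel_rz hpos hF b
  set C : ℝ := (Real.exp v0 + |A|) * B * Real.exp v0 with hC
  have hC0 : 0 ≤ C := by positivity
  have hI1 : IntegrableOn (fun v : ℝ => Real.exp (-v)) (Ioi 0) := by
    have := exp_neg_integrableOn_Ioi 0 (show (0:ℝ) < 1 by norm_num)
    simpa only [neg_mul, one_mul] using this
  have hI1v : ∫ v in Ioi (0:ℝ), Real.exp (-v) = 1 := integral_exp_neg_Ioi_zero
  have key : ∀ δ : ℝ, 0 < δ → σ * (δ * j δ) ≤ A * (δ * ∫ v in Ioi (0:ℝ), Real.exp (-(δ * v)) * rz g b v) + δ * C := by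
    intro δ hδ
    have h1 : σ * j δ ≤ A * (∫ v in Ioi (0:ℝ), Real.exp (-(δ * v)) * rz g b v) + C := by
      rw [hj]
      beta_reduce
      rw [← integral_const_mul, ← integral_const_mul]
      have h2 : ∫ v in Ioi (0:ℝ), σ * (ft v * Real.exp (-(δ * v)) * rz g b v) ≤
          ∫ v in Ioi (0:ℝ), (A * (Real.exp (-(δ * v)) * rz g b v) + C * Real.exp (-v)) := by
        refine setIntegral_mono_on ((hJint δ hδ).const_mul σ) (((rz_int hbn hδ).const_mul A).add (hI1.const_mul C))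
          measurableSet_Ioi fun v hv => ?_
        have hv0 : 0 < v := hv
        have r0 : 0 ≤ rz g b v := rz_nonneg g hbn v
        have r1 : rz g b v ≤ B := rz_le g hbn v
        have x0 : 0 < Real.exp (-(δ * v)) := Real.exp_pos _
        have x1 : Real.exp (-(δ * v)) ≤ 1 := Real.exp_le_one_iff.2 (by nlinarith)
        have p0 : 0 ≤ Real.exp (-(δ * v)) * rz g b v := mul_nonneg x0.le r0
        rcases le_total v0 v with h3 | h3
        · have h4 := mul_le_mul_of_nonneg_right (hup v h3) p0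
          have h5 : 0 ≤ C * Real.exp (-v) := by positivity
          calc σ * (ft v * Real.exp (-(δ * v)) * rz g b v) = σ * ft v * (Real.exp (-(δ * v)) * rz g b v) := by ring
            _ ≤ A * (Real.exp (-(δ * v)) * rz g b v) := h4
            _ ≤ _ := by linarith
        · have h4 := hlow v hv0.le h3
          have h5 : σ * ft v - A ≤ Real.exp v0 + |A| := by
            have := le_abs_self (σ * ft v)
            rw [abs_mul, hσa, one_mul] at this
            have := neg_abs_le A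
            linarith
          have h6 : (σ * ft v - A) * (Real.exp (-(δ * v)) * rz g b v) ≤ (Real.exp v0 + |A|) * B := by
            calc (σ * ft v - A) * (Real.exp (-(δ * v)) * rz g b v) ≤
                  (Real.exp v0 + |A|) * (Real.exp (-(δ * v)) * rz g b v) := mul_le_mul_of_nonneg_right h5 p0
              _ ≤ (Real.exp v0 + |A|) * (1 * B) := by
                  refine mul_le_mul_of_nonneg_left ?_ (by positivity)
                  exact mul_le_mul x1 r1 r0 zero_le_one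
              _ = _ := by rw [one_mul]
          have h7 : (Real.exp v0 + |A|) * B ≤ C * Real.exp (-v) := by
            rw [hC, mul_assoc _ (Real.exp v0), ← Real.exp_add]
            have : 1 ≤ Real.exp (v0 + -v) := Real.one_le_exp (by linarith)
            have h8 : 0 ≤ (Real.exp v0 + |A|) * B := by positivity
            nlinarith
          nlinarith
      refine h2.trans (le_of_eq ?_)
      rw [integral_add ((rz_int hbn hδ).const_mul A) (hI1.const_mul C), integral_const_mul C, hI1v, mul_one]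
    have := mul_le_mul_of_nonneg_left h1 hδ.le
    calc σ * (δ * j δ) = δ * (σ * j δ) := by ring
      _ ≤ δ * (A * (∫ v in Ioi (0:ℝ), Real.exp (-(δ * v)) * rz g b v) + C) := this
      _ = _ := by ring
  have l3 : Tendsto (fun δ : ℝ => δ * C) (𝓝[>] 0) (𝓝 (0 * C)) :=
    ((continuous_id.mul continuous_const).tendsto (0:ℝ)).mono_left nhdsWithin_le_nhds
  have h9 := le_of_tendsto_of_tendsto (l1.const_mul σ) ((l2.const_mul A).add l3) (by
    filter_upwards [self_mem_nhdsWithin] with δ hδ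
    exact key δ hδ)
  have h7 : σ * (σ * S) = S := by rw [← mul_assoc, hσσ, one_mul]
  rw [h7] at h9
  linarith

/-- the main step, with a one-sided bound -/
lemma step1 {ε : ℝ} (hε : 0 < ε) : ∀ᶠ T : ℝ in atTop, NR T →
    ∀ σ : ℝ, σ = 1 ∨ σ = -1 → ¬ ∀ᶠ v in atTop, σ * ft v ≤ Real.log T ^ (5 / 4 - ε) := by
  classical
  filter_upwards [amp (show 0 < ε / 2 by positivity), Real.tendsto_log_atTop.eventually_gt_atTop 1] with T hT hL
  intro hN σ hσ hA
  obtain ⟨Z, hZ1, hZ2⟩ := hT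
  have hzr : ∀ ρ ∈ Z, zr ρ.im = ρ := fun ρ hρ => by
    apply Complex.ext
    · rw [(hZ1 ρ hρ).2.1]; rfl
    · rfl
  have hinj : Function.Injective (fun i : {x // x ∈ Z} => (i : ℂ).im) := by
    intro i j h
    apply Subtype.ext
    rw [← hzr i i.2, ← hzr j j.2]
    exact congrArg zr h
  have hg : ∀ i : {x // x ∈ Z}, 0 < (i : ℂ).im ∧ (i : ℂ).im ≤ T ∧ riemannZeta (zr (i : ℂ).im) = 0 := fun i => by
    rw [hzr i i.2]
    exact ⟨(hZ1 i i.2).2.2.1, (hZ1 i i.2).2.2.2.1, (hZ1 i i.2).1⟩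
  have h1 := bound1 (g := fun i : {x // x ∈ Z} => (i : ℂ).im) (fun i => (hg i).1)
    (fun i => zr_NT.2 (hg i).2.2) (free_of hN hinj hg) hσ hA
  have h2 : ∑ i : {x // x ∈ Z}, ‖ww (zr (i : ℂ).im)‖ = ∑ ρ ∈ Z, ‖ww ρ‖ := by
    rw [← Finset.sum_coe_sort Z (fun ρ => ‖ww ρ‖)]
    exact Finset.sum_congr rfl fun i _ => by rw [hzr i i.2]
  rw [h2] at h1
  have h3 : Real.log T ^ (5 / 4 - ε) < Real.log T ^ (5 / 4 - ε / 2) :=
    Real.rpow_lt_rpow_of_exponent_lt hL (by linarith)
  linarith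

end Pool.Agent.H362.QI
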