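import Pool.Agent.H313.ZC.AP2

set_option autoImplicit false

/-! # Riesz products and the mean values of `M(e^v) e^(-v/2)` -/

namespace Pool.Agent.H362.QI

open MeasureTheory Filter Topology Set
open Pool.Agent.W120.WM (NT)
open Pool.Agent.H295R2 (ww ee)
open Pool.Agent.TH223.AP
open Pool.Agent.H313.ZC (HS aa fz fz_mem fz_sum dist_fin exists_fz im_ne)

/-- complex mean value -/
noncomputable def cm (g : ℝ → ℂ) (V : ℝ) : ℂ := (∫ v in (0:ℝ)..V, g v) / (V : ℂ)

/-- mean value of a finite sum of waves -/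
lemma cm_sum {ι : Type*} (s : Finset ι) (w : ι → ℂ) (l : ι → ℝ) :
    Tendsto (cm fun v => ∑ i ∈ s, w i * ex (l i) v) atTop (𝓝 (∑ i ∈ s, if l i = 0 then w i else 0)) := by
  have h1 : Tendsto (fun V : ℝ => ∑ i ∈ s, w i * ((∫ v in (0:ℝ)..V, ex (l i) v) / (V : ℂ))) atTop
      (𝓝 (∑ i ∈ s, w i * (if l i = 0 then 1 else 0))) :=
    tendsto_finsetSum _ fun i _ => (mean_ex _).const_mul _
  have h2 : ∑ i ∈ s, w i * (if l i = 0 then (1:ℂ) else 0) = ∑ i ∈ s, if l i = 0 then w i else 0 := by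
    refine Finset.sum_congr rfl fun i _ => ?_
    split_ifs <;> simp
  rw [h2] at h1
  refine h1.congr fun V => ?_
  unfold cm
  rw [intervalIntegral.integral_finset_sum]
  · rw [Finset.sum_div]
    refine Finset.sum_congr rfl fun i _ => ?_
    rw [intervalIntegral.integral_const_mul, mul_div_assoc]
  · intro i _
    exact ((ex_cont _).const_mul _).intervalIntegrable _ _

lemma ex_add (l m v : ℝ) : ex (l + m) v = ex l v * ex m v := by
  unfold ex
  rw [← Complex.exp_add]
  congr 1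
  push_cast; ring

lemma ex_zero (v : ℝ) : ex 0 v = 1 := by simp [ex]

lemma ex_neg (l v : ℝ) : ex (-l) v = (starRingEnd ℂ) (ex l v) := by
  unfold ex
  rw [← Complex.exp_conj]
  simp

variable {n : Type} [Fintype n] [DecidableEq n]

/-- the digits -/
def dg : Finset ℤ := {-1, 0, 1}

/-- the coefficients -/
noncomputable def bc (b : n → ℂ) (i : n) (j : ℤ) : ℂ := if j = 0 then 1 else if j = 1 then b i else (starRingEnd ℂ) (b i)

/-- the Riesz product -/
noncomputable def rz (g : n → ℝ) (b : n → ℂ) (v : ℝ) : ℝ := ∏ i, (1 + 2 * (b i * ex (g i) v).re)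

/-- its frequencies -/
def fr (g : n → ℝ) (e : n → ℤ) : ℝ := ∑ i, (e i : ℝ) * g i

/-- its coefficients -/
noncomputable def cf (b : n → ℂ) (e : n → ℤ) : ℂ := ∏ i, bc b i (e i)

lemma factor (g : ℝ) (b : ℂ) (v : ℝ) :
    ((1 + 2 * (b * ex g v).re : ℝ) : ℂ) = 1 + b * ex g v + (starRingEnd ℂ) b * ex (-g) v := by
  rw [ex_neg, ← map_mul, add_assoc, Complex.add_conj]
  push_cast; ring

lemma ex_sum (g : n → ℝ) (e : n → ℤ) (v : ℝ) : ex (fr g e) v = ∏ i, ex ((e i : ℝ) * g i) v := by
  unfold ex fr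
  rw [← Complex.exp_sum]
  congr 1
  push_cast
  rw [Finset.mul_sum, Finset.sum_mul]

lemma rz_expand (g : n → ℝ) (b : n → ℂ) (v : ℝ) :
    ((rz g b v : ℝ) : ℂ) = ∑ e ∈ Fintype.piFinset (fun _ : n => dg), cf b e * ex (fr g e) v := by
  unfold rz
  rw [Complex.ofReal_prod]
  have h1 : ∀ i : n, ((1 + 2 * (b i * ex (g i) v).re : ℝ) : ℂ) = ∑ j ∈ dg, bc b i j * ex ((j : ℝ) * g i) v := by
    intro i
    rw [factor]
    unfold dg bc
    rw [Finset.sum_insert (by decide), Finset.sum_insert (by decide), Finset.sum_singleton]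
    simp [ex_zero]
    ring
  rw [Finset.prod_congr rfl fun i _ => h1 i, Finset.prod_univ_sum]
  refine Finset.sum_congr rfl fun e _ => ?_
  rw [Finset.prod_mul_distrib, ex_sum]
  rfl

lemma rz_nonneg (g : n → ℝ) {b : n → ℂ} (hb : ∀ i, ‖b i‖ ≤ 1 / 2) (v : ℝ) : 0 ≤ rz g b v := by
  unfold rz
  refine Finset.prod_nonneg fun i _ => ?_
  have h1 := Complex.abs_re_le_norm (b i * ex (g i) v)
  rw [norm_mul, norm_ex, mul_one] at h1
  have h2 := (abs_le.1 (h1.trans (hb i))).1
  linarith

lemma rz_le (g : n → ℝ) {b : n → ℂ} (hb : ∀ i, ‖b i‖ ≤ 1 / 2) (v : ℝ) : rz g b v ≤ 2 ^ Fintype.card n := by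
  unfold rz
  rw [← Finset.card_univ, ← Finset.prod_const]
  refine Finset.prod_le_prod (fun i _ => ?_) fun i _ => ?_
  · have h1 := Complex.abs_re_le_norm (b i * ex (g i) v)
    rw [norm_mul, norm_ex, mul_one] at h1
    have h2 := (abs_le.1 (h1.trans (hb i))).1
    linarith
  · have h1 := Complex.abs_re_le_norm (b i * ex (g i) v)
    rw [norm_mul, norm_ex, mul_one] at h1
    have h2 := (abs_le.1 (h1.trans (hb i))).2
    linarith

lemma rz_cont (g : n → ℝ) (b : n → ℂ) : Continuous (rz g b) := by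
  unfold rz
  refine continuous_finset_prod _ fun i _ => ?_
  have := ex_cont (g i)
  fun_prop

/-- the singletons -/
def sg (p : n × ℤ) : n → ℤ := Pi.single p.1 p.2

lemma sum_single {F : (n → ℤ) → ℂ} (hF : ∀ e ∈ Fintype.piFinset (fun _ : n => dg), F e ≠ 0 →
    ∃ p ∈ (Finset.univ : Finset n) ×ˢ ({-1, 1} : Finset ℤ), sg p = e) :
    ∑ e ∈ Fintype.piFinset (fun _ : n => dg), F e = ∑ i, (F (sg (i, -1)) + F (sg (i, 1))) := by
  have hinj : Set.InjOn (sg (n := n)) ((Finset.univ ×ˢ ({-1, 1} : Finset ℤ) : Finset (n × ℤ)) : Set (n × ℤ)) := by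
    rintro ⟨i, a⟩ h1 ⟨j, b⟩ h2 h
    rw [Finset.mem_coe, Finset.mem_product] at h1 h2
    have ha : a ≠ 0 := by
      have := h1.2
      simp at this
      rcases this with h | h <;> omega
    unfold sg at h
    simp only at h
    have h3 := congrFun h i
    rw [Pi.single_eq_same] at h3
    by_cases hij : i = j
    · subst hij
      rw [Pi.single_eq_same] at h3
      rw [h3]
    · rw [Pi.single_eq_of_ne hij] at h3
      exact absurd h3 ha
  have hsub : ((Finset.univ ×ˢ ({-1, 1} : Finset ℤ) : Finset (n × ℤ)).image sg) ⊆ Fintype.piFinset (fun _ : n => dg) := by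
    intro e he
    rw [Finset.mem_image] at he
    obtain ⟨⟨i, a⟩, hp, rfl⟩ := he
    rw [Finset.mem_product] at hp
    rw [Fintype.mem_piFinset]
    intro j
    unfold sg
    by_cases hij : j = i
    · subst hij
      rw [Pi.single_eq_same]
      have := hp.2
      simp at this
      unfold dg
      rcases this with h | h <;> simp [h]
    · rw [Pi.single_eq_of_ne hij]
      unfold dg
      simp
  rw [← Finset.sum_subset hsub]
  · rw [Finset.sum_image hinj, Finset.sum_product]
    refine Finset.sum_congr rfl fun i _ => ?_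
    rw [Finset.sum_insert (by decide), Finset.sum_singleton]
  · intro e he hne
    by_contra h
    obtain ⟨p, hp, hpe⟩ := hF e he h
    exact hne (Finset.mem_image.2 ⟨p, hp, hpe⟩)

lemma fr_single (g : n → ℝ) (i : n) (a : ℤ) : fr g (sg (i, a)) = a * g i := by
  unfold fr sg
  rw [Fintype.sum_eq_single i]
  · rw [Pi.single_eq_same]
  · intro j hj
    rw [Pi.single_eq_of_ne hj]
    simp

lemma cf_single (b : n → ℂ) (i : n) (a : ℤ) : cf b (sg (i, a)) = bc b i a := by
  unfold cf sg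
  rw [Fintype.prod_eq_single i]
  · rw [Pi.single_eq_same]
  · intro j hj
    rw [Pi.single_eq_of_ne hj]
    simp [bc]

end Pool.Agent.H362.QI
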